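import Pool.Agent.KS6_67.MR.Core

set_option autoImplicit false

/-!
# The modular version of Rado's boundedness conjecture: exact answer in the number of variables

For every prime `p` the modular statement (with `ℤ/p^r` in place of `ℤ/2^r`) holds for equations in
at most two variables, where three colours are enough, and fails for equations in `k` variables for
every `k ≥ 3`. The failure holds for every base `b ≥ 2`, prime or not.
-/

namespace Pool.Agent.Results.MP_2076c8_co.AllPrimesAllLengths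

open Pool.Agent.KS6_67.MR

/-- The modular statement for the base `b`, equations in `k` variables and `K` colours: for every `r`
and all `a_1, ..., a_k ∈ ℤ/b^r`, with `d ≤ r` the largest exponent such that `b^d` divides
`∑ i ∈ I, a_i` for some non-empty `I`, some `K`-colouring of `ℤ/b^r` has the property that all
entries of every monochromatic solution of `∑ a_i x_i = 0` are divisible by `b^(r-d)`. -/
def ModularRado (b k K : ℕ) : Prop :=
  ∀ (r : ℕ) (a : Fin k → ZMod (b ^ r)) (d : ℕ), d ≤ r →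
    (∃ I : Finset (Fin k), I.Nonempty ∧ (b : ZMod (b ^ r)) ^ d ∣ ∑ i ∈ I, a i) →
    (∀ d' : ℕ, d < d' → d' ≤ r → ∀ I : Finset (Fin k), I.Nonempty →
      ¬ (b : ZMod (b ^ r)) ^ d' ∣ ∑ i ∈ I, a i) →
    ∃ c : ZMod (b ^ r) → Fin K, ∀ x : Fin k → ZMod (b ^ r),
      (∀ i j, c (x i) = c (x j)) → ∑ i, a i * x i = 0 →
        ∀ i, (b : ZMod (b ^ r)) ^ (r - d) ∣ x i

/-- every element of `ℤ/p^r` is a unit times `p^e`, `e ≤ r` -/
lemma rep {p : ℕ} (hp : p.Prime) (r : ℕ) (y : ZMod (p ^ r)) :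
    ∃ e ≤ r, ∃ u : (ZMod (p ^ r))ˣ, y = (p : ZMod (p ^ r)) ^ e * u := by
  have : NeZero (p ^ r) := ⟨(Nat.pow_pos hp.pos).ne'⟩
  rcases Nat.eq_zero_or_pos y.val with h | h
  · refine ⟨r, le_rfl, 1, ?_⟩
    rw [(ZMod.val_eq_zero y).1 h]
    have := ZMod.natCast_self (p ^ r)
    push_cast at this
    rw [this, zero_mul]
  · obtain ⟨e, m, hm, hn⟩ := Nat.exists_eq_pow_mul_and_not_dvd h.ne' p hp.ne_one
    refine ⟨e, ?_, ZMod.unitOfCoprime m
      (Nat.Coprime.pow_right r ((Nat.Prime.coprime_iff_not_dvd hp).2 hm).symm), ?_⟩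
    · have h1 : p ^ e ≤ y.val := by
        rw [hn]
        exact Nat.le_mul_of_pos_right _ (Nat.pos_of_ne_zero fun h0 => hm (by rw [h0]; exact dvd_zero _))
      exact ((Nat.pow_lt_pow_iff_right hp.one_lt).1 (h1.trans_lt (ZMod.val_lt y))).le
    · rw [ZMod.coe_unitOfCoprime, ← Nat.cast_pow, ← Nat.cast_mul, ← hn, ZMod.natCast_zmod_val]

/-- `p^e y = 0` implies that `p^(r-e)` divides `y` -/
lemma dvd_of_ann {p : ℕ} (hp : p.Prime) {r e : ℕ} (he : e ≤ r) {y : ZMod (p ^ r)}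
    (h : (p : ZMod (p ^ r)) ^ e * y = 0) : (p : ZMod (p ^ r)) ^ (r - e) ∣ y := by
  have : NeZero (p ^ r) := ⟨(Nat.pow_pos hp.pos).ne'⟩
  have h1 : ((p ^ e * y.val : ℕ) : ZMod (p ^ r)) = 0 := by
    push_cast
    rw [ZMod.natCast_zmod_val]
    exact h
  rw [ZMod.natCast_eq_zero_iff] at h1
  have h2 : p ^ e * p ^ (r - e) ∣ p ^ e * y.val := by
    rw [← pow_add, Nat.add_sub_cancel' he]
    exact h1
  have h3 := Nat.dvd_of_mul_dvd_mul_left (Nat.pow_pos hp.pos) h2
  have h4 := Nat.cast_dvd_cast (α := ZMod (p ^ r)) h3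
  rwa [ZMod.natCast_zmod_val, Nat.cast_pow] at h4

lemma dvd_of_mul {p : ℕ} (hp : p.Prime) {k r d : ℕ} {a : Fin k → ZMod (p ^ r)}
    (hmax : ∀ d' : ℕ, d < d' → d' ≤ r → ∀ I : Finset (Fin k), I.Nonempty →
      ¬ (p : ZMod (p ^ r)) ^ d' ∣ ∑ i ∈ I, a i) (I : Finset (Fin k)) (hI : I.Nonempty)
    {y : ZMod (p ^ r)} (h : (∑ i ∈ I, a i) * y = 0) : (p : ZMod (p ^ r)) ^ (r - d) ∣ y := by
  obtain ⟨e, he, u, hu⟩ := rep hp r (∑ i ∈ I, a i)
  have h1 : e ≤ d := by
    by_contra hlt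
    exact hmax e (by omega) he I hI ⟨u, hu⟩
  have h2 : (p : ZMod (p ^ r)) ^ e * y = 0 := by
    rw [hu, mul_assoc, mul_comm (u : ZMod (p ^ r)), ← mul_assoc] at h
    exact (Units.mul_left_eq_zero u).1 h
  exact (pow_dvd_pow _ (by omega)).trans (dvd_of_ann hp he h2)

lemma dvd_total {p : ℕ} (hp : p.Prime) {r : ℕ} (y z : ZMod (p ^ r)) :
    (∃ s, z = y * s) ∨ ∃ s, y = z * s := by
  obtain ⟨e, -, u, rfl⟩ := rep hp r y
  obtain ⟨f, -, v, rfl⟩ := rep hp r z
  rcases le_total e f with h | h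
  · refine Or.inl ⟨(u⁻¹ : (ZMod (p ^ r))ˣ) * (p : ZMod (p ^ r)) ^ (f - e) * v, ?_⟩
    have : (p : ZMod (p ^ r)) ^ f = p ^ e * p ^ (f - e) := by rw [← pow_add, Nat.add_sub_cancel' h]
    rw [this]
    linear_combination (-(p : ZMod (p ^ r)) ^ e * (p : ZMod (p ^ r)) ^ (f - e) * v) * u.mul_inv
  · refine Or.inr ⟨(v⁻¹ : (ZMod (p ^ r))ˣ) * (p : ZMod (p ^ r)) ^ (e - f) * u, ?_⟩
    have : (p : ZMod (p ^ r)) ^ e = p ^ f * p ^ (e - f) := by rw [← pow_add, Nat.add_sub_cancel' h]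
    rw [this]
    linear_combination (-(p : ZMod (p ^ r)) ^ f * (p : ZMod (p ^ r)) ^ (e - f) * u) * v.mul_inv

/-- the positive part -/
lemma pos {p : ℕ} (hp : p.Prime) {k : ℕ} (hk : k ≤ 2) : ModularRado p k 3 := by
  intro r a d _ _ hmax
  have : NeZero (p ^ r) := ⟨(Nat.pow_pos hp.pos).ne'⟩
  interval_cases k
  · exact ⟨fun _ => 0, fun x _ _ i => i.elim0⟩
  · refine ⟨fun _ => 0, fun x _ h i => ?_⟩
    rw [Fin.sum_univ_one] at h
    have hi : i = 0 := Subsingleton.elim _ _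
    subst hi
    exact dvd_of_mul hp hmax {0} (by simp) (by simpa using h)
  · have hsum : ∑ i ∈ (Finset.univ : Finset (Fin 2)), a i = a 0 + a 1 := Fin.sum_univ_two _
    rcases dvd_total hp (a 0) (a 1) with ⟨s, hs⟩ | ⟨s, hs⟩
    · obtain ⟨c, hc⟩ := two_var (a 0) s
      refine ⟨c, fun x hx h i => ?_⟩
      rw [Fin.sum_univ_two, hs] at h
      obtain ⟨h1, h2⟩ := hc (x 0) (x 1) (hx 0 1) h
      refine dvd_of_mul hp hmax Finset.univ Finset.univ_nonempty ?_
      rw [hsum, hs]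
      fin_cases i
      · exact h1
      · exact h2
    · obtain ⟨c, hc⟩ := two_var (a 1) s
      refine ⟨c, fun x hx h i => ?_⟩
      rw [Fin.sum_univ_two, hs, add_comm] at h
      obtain ⟨h1, h2⟩ := hc (x 1) (x 0) (hx 1 0) h
      refine dvd_of_mul hp hmax Finset.univ Finset.univ_nonempty ?_
      rw [hsum, hs, add_comm]
      fin_cases i
      · exact h2
      · exact h1

/-- the coefficients `1, b^t - 1, b^t, ..., b^t` -/
def coef (b t : ℕ) {n : ℕ} : Fin (n + 3) → ℕ :=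
  Fin.cons 1 (Fin.cons (b ^ t - 1) fun _ => b ^ t)

/-- the negative part -/
lemma neg {b : ℕ} (hb : 2 ≤ b) (n K : ℕ) : ¬ ModularRado b (n + 3) K := by
  classical
  intro hK
  obtain ⟨t, ht, hcore⟩ := core b K n (n + 2) hb
  have hbpos : 0 < b := by omega
  have hmpos : 2 ≤ b ^ t := by
    calc 2 ≤ b := hb
      _ = b ^ 1 := (pow_one b).symm
      _ ≤ b ^ t := Nat.pow_le_pow_right hbpos (by omega)
  have cpos : ∀ i : Fin (n + 3), 0 < coef b t i := by
    intro i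
    refine Fin.cases ?_ (fun j => Fin.cases ?_ (fun l => ?_) j) i
    · simp [coef]
    · simp only [coef, Fin.cons_succ, Fin.cons_zero]; omega
    · simp only [coef, Fin.cons_succ]; omega
  have csum : ∑ i : Fin (n + 3), coef b t i = (n + 2) * b ^ t := by
    rw [Fin.sum_univ_succ, Fin.sum_univ_succ]
    simp only [coef, Fin.cons_zero, Fin.cons_succ, Finset.sum_const, Finset.card_univ,
      Fintype.card_fin, smul_eq_mul]
    have : (n + 2) * b ^ t = (n + 1) * b ^ t + b ^ t := by ring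
    omega
  have clt : ∀ I : Finset (Fin (n + 3)), I.Nonempty → 0 < ∑ i ∈ I, coef b t i ∧
      ∑ i ∈ I, coef b t i < b ^ (t + (n + 2)) := by
    intro I hI
    refine ⟨Finset.sum_pos (fun i _ => cpos i) hI, ?_⟩
    calc ∑ i ∈ I, coef b t i ≤ ∑ i, coef b t i :=
          Finset.sum_le_sum_of_subset (Finset.subset_univ I)
      _ = (n + 2) * b ^ t := csum
      _ < b ^ (n + 2) * b ^ t := Nat.mul_lt_mul_of_pos_right (Nat.lt_pow_self (by omega)) (by omega)
      _ = b ^ (t + (n + 2)) := by rw [← pow_add, add_comm]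
  set a : Fin (n + 3) → ZMod (b ^ (2 * t)) := fun i => (coef b t i : ZMod (b ^ (2 * t))) with ha
  have acast : ∀ I : Finset (Fin (n + 3)),
      ∑ i ∈ I, a i = ((∑ i ∈ I, coef b t i : ℕ) : ZMod (b ^ (2 * t))) := fun I => by
    rw [Nat.cast_sum]
  have abound : ∀ d' : ℕ, t + (n + 2) ≤ d' → ∀ I : Finset (Fin (n + 3)), I.Nonempty →
      ¬ (b : ZMod (b ^ (2 * t))) ^ d' ∣ ∑ i ∈ I, a i := by
    intro d' hd' I hI h
    rw [acast] at h
    obtain ⟨h1, h2⟩ := clt I hI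
    refine not_dvd_of_small b (2 * t) (t + (n + 2)) _ (by omega) ?_ ((pow_dvd_pow _ hd').trans h)
    rw [Nat.mod_eq_of_lt h2]
    exact h1
  -- the largest exponent
  have hex : ∃ d, ∃ I : Finset (Fin (n + 3)), I.Nonempty ∧
      (b : ZMod (b ^ (2 * t))) ^ d ∣ ∑ i ∈ I, a i := ⟨0, Finset.univ, Finset.univ_nonempty, by simp⟩
  let Q : ℕ → Prop := fun d => ∃ I : Finset (Fin (n + 3)), I.Nonempty ∧
      (b : ZMod (b ^ (2 * t))) ^ d ∣ ∑ i ∈ I, a i
  have hQ0 : Q 0 := ⟨Finset.univ, Finset.univ_nonempty, by simp⟩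
  set d := Nat.findGreatest Q (2 * t) with hd
  have hdQ : Q d := Nat.findGreatest_spec (P := Q) (Nat.zero_le _) hQ0
  have hdle : d ≤ 2 * t := Nat.findGreatest_le _
  have hdlt : d < t + (n + 2) := by
    by_contra h
    obtain ⟨I, hI, h1⟩ := hdQ
    exact abound d (not_lt.1 h) I hI h1
  obtain ⟨c, hc⟩ := hK (2 * t) a d hdle hdQ (by
    intro d' h1 h2 I hI h3
    exact Nat.findGreatest_is_greatest h1 h2 ⟨I, hI, h3⟩)
  obtain ⟨x, y, z, hxy, hyz, hsum, hnd⟩ := hcore c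
  apply hnd
  let X : Fin (n + 3) → ZMod (b ^ (2 * t)) := Fin.cons x (Fin.cons y (Fin.cons z fun _ => x))
  have hX : ∀ i, c (X i) = c x := by
    intro i
    refine Fin.cases ?_ (fun j => Fin.cases ?_ (fun l => Fin.cases ?_ (fun m => ?_) l) j) i
    · rfl
    · simp only [X, Fin.cons_succ, Fin.cons_zero]; exact hxy.symm
    · simp only [X, Fin.cons_succ, Fin.cons_zero]; exact (hxy.trans hyz).symm
    · simp only [X, Fin.cons_succ]
  have h0 := hc X (fun i j => by rw [hX, hX]) (by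
    rw [Fin.sum_univ_succ, Fin.sum_univ_succ, Fin.sum_univ_succ]
    simp only [ha, X, coef, Fin.cons_zero, Fin.cons_succ, Finset.sum_const, Finset.card_univ,
      Fintype.card_fin, nsmul_eq_mul]
    rw [Nat.cast_sub (by omega)]
    push_cast
    linear_combination hsum) 0
  exact (pow_dvd_pow _ (by omega)).trans h0

/-- **The exact answer in the number of variables, for every prime.**
(1) For every prime `p` and every `k` the modular statement for `k` variables, with some number `K`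
of colours, holds if and only if `k ≤ 2`. (2) For `k ≤ 2` three colours are enough. (3) For `k ≥ 3`
it fails for every base `b ≥ 2` and every number of colours. -/
theorem result :
    (∀ p : ℕ, p.Prime → ∀ k : ℕ, (∃ K : ℕ, ModularRado p k K) ↔ k ≤ 2) ∧
    (∀ p : ℕ, p.Prime → ∀ k : ℕ, k ≤ 2 → ModularRado p k 3) ∧
    (∀ b : ℕ, 2 ≤ b → ∀ k : ℕ, 3 ≤ k → ∀ K : ℕ, ¬ ModularRado b k K) := by
  have h3 : ∀ b : ℕ, 2 ≤ b → ∀ k : ℕ, 3 ≤ k → ∀ K : ℕ, ¬ ModularRado b k K := by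
    intro b hb k hk K
    obtain ⟨n, rfl⟩ : ∃ n, k = n + 3 := ⟨k - 3, by omega⟩
    exact neg hb n K
  refine ⟨fun p hp k => ⟨fun ⟨K, hK⟩ => ?_, fun hk => ⟨3, pos hp hk⟩⟩, fun p hp k hk => pos hp hk, h3⟩
  by_contra h
  exact h3 p hp.two_le k (by omega) K hK

end Pool.Agent.Results.MP_2076c8_co.AllPrimesAllLengths
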